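import Pool.Agent.W440.FP.Decf
import Pool.Agent.W78.EC.Defs3

/-!
Project EC (helper78), task EC-M1: the decomposition with a general radial weight
(port of `Pool.Agent.W440.FP.Decf`).
-/

set_option autoImplicit false

namespace Pool.Agent.W179.EC

open Finset Filter
open Pool.Agent.H376R2.MR hiding GG Sm
open Pool.Agent.W78.GA hiding GG PE S_DEC
open Pool.Agent.W638.GA hiding one_term GG_eq sum_eq dec_of
open Pool.Agent.W349.GS (gl_sq)
open Pool.Agent.W84.FP
open Pool.Agent.W440.FP (twF norm_twF)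
open Pool.Agent.W78.EC (Rw GFw S_DECW)

variable {t c : ℤ} {Ap Bp M : ℕ → Prop} {E : ℕ} {ρ : ℕ → ℤ} {ϖ : ℕ → Qd t c} {F : Qd t c → ℤ}
  {Λ : ℝ} {wt : ℝ → ℝ}

/-- the value of the term of `z` in the part of content `n` -/
noncomputable def VlW (wt : ℝ → ℝ) (m n : ℕ) (lZ : ℝ) (z : Qd t c) : ℝ :=
  (gl z : ℝ) * wt (Real.log (nm z) + 2 * Real.log n - Real.log m - lZ) / (n : ℝ) ^ 2

theorem bgW_zero (hR : Rw Λ wt) (hD : t ^ 2 < 4 * c) {Z : ℝ} (hZ : 0 < Z) {z : Qd t c} (hz : prim z)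
    (h : ¬ (nm z : ℝ) ≤ Real.exp 1 * Z) : wt (Real.log (nm z) - Real.log Z) = 0 := by
  have h0 := nm_posR hD (prim_ne_zero hz)
  rw [not_le] at h
  have h1 := Real.log_lt_log (by positivity) h
  rw [Real.log_mul (Real.exp_pos 1).ne' hZ.ne', Real.log_exp] at h1
  exact hR.supp _ (by rw [abs_of_pos (by linarith)]; linarith)

open scoped Classical in
/-- the smoothed number of divisors `ϖ m` -/
noncomputable def dTW (wt : ℝ → ℝ) (M : ℕ → Prop) (ϖ : ℕ → Qd t c) (H v₀ v₁ : ℕ) (Y : ℝ)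
    (z : Qd t c) : ℝ :=
  ∑ v ∈ Ico v₀ v₁, ∑ m ∈ cellM M H v, if ϖ m ∣ z then
    wt (Real.log (nm z) - Real.log Y - (Real.log m - (v : ℝ) / H)) else 0

open scoped Classical in
/-- the contribution of the non-primitive products -/
noncomputable def dBW (wt : ℝ → ℝ) (M : ℕ → Prop) (ϖ : ℕ → Qd t c) (H v₀ v₁ : ℕ) (Y : ℝ)
    (z : Qd t c) : ℝ :=
  ∑ v ∈ Ico v₀ v₁, ∑ m ∈ cellM M H v, ∑ n ∈ m.divisors.erase 1,
    if ∃ u : Qd t c, prim u ∧ ϖ m * u = (n : Qd t c) * z then
      VlW wt m n (Real.log Y - (v : ℝ) / H) z else 0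

theorem dec_realW {x om T W H L : ℝ} (hW : 1 ≤ W) (hH : 1 ≤ H) (hL : 1 ≤ L) (hx : |x| ≤ 1)
    (_hom : 0 ≤ om) (hT : |om * x - T| ≤ L * (om / H)) :
    (x - T / W) ^ 2 ≤ L ^ 2 * (2 * ((om - W) ^ 2 / W ^ 2 +
      (2 * (om - W) ^ 2 + 2 * W ^ 2) / (H ^ 2 * W ^ 2))) := by
  have hW0 : 0 < W := by linarith
  have hH0 : 0 < H := by linarith
  have hL2 : 1 ≤ L ^ 2 := one_le_pow₀ hL
  have e : x - T / W = x * ((W - om) / W) + (om * x - T) / W := by field_simp; ring
  have h1 : (x - T / W) ^ 2 ≤ 2 * ((x * ((W - om) / W)) ^ 2 + ((om * x - T) / W) ^ 2) := by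
    rw [e]; nlinarith [sq_nonneg (x * ((W - om) / W) - (om * x - T) / W)]
  refine h1.trans ?_
  have hx2 : x ^ 2 ≤ 1 := by rw [← sq_abs]; exact pow_le_one₀ (abs_nonneg _) hx
  have h2 : (x * ((W - om) / W)) ^ 2 ≤ L ^ 2 * ((om - W) ^ 2 / W ^ 2) := by
    have e2 : (x * ((W - om) / W)) ^ 2 = x ^ 2 * ((om - W) ^ 2 / W ^ 2) := by field_simp; ring
    rw [e2]
    exact mul_le_mul_of_nonneg_right (hx2.trans hL2) (by positivity)
  have h3 : ((om * x - T) / W) ^ 2 ≤
      L ^ 2 * ((2 * (om - W) ^ 2 + 2 * W ^ 2) / (H ^ 2 * W ^ 2)) := by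
    have h4 : (om * x - T) ^ 2 ≤ (L * (om / H)) ^ 2 := by
      rw [← sq_abs]; exact pow_le_pow_left₀ (abs_nonneg _) hT 2
    have h5 : om ^ 2 ≤ 2 * (om - W) ^ 2 + 2 * W ^ 2 := by nlinarith [sq_nonneg (om - 2 * W)]
    calc ((om * x - T) / W) ^ 2 = (om * x - T) ^ 2 / W ^ 2 := by rw [div_pow]
      _ ≤ (L * (om / H)) ^ 2 / W ^ 2 := div_le_div_of_nonneg_right h4 (by positivity)
      _ = L ^ 2 * (om ^ 2 / (H ^ 2 * W ^ 2)) := by field_simp
      _ ≤ L ^ 2 * ((2 * (om - W) ^ 2 + 2 * W ^ 2) / (H ^ 2 * W ^ 2)) := by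
          apply mul_le_mul_of_nonneg_left _ (by positivity)
          exact div_le_div_of_nonneg_right h5 (by positivity)
  calc 2 * ((x * ((W - om) / W)) ^ 2 + ((om * x - T) / W) ^ 2)
      ≤ 2 * (L ^ 2 * ((om - W) ^ 2 / W ^ 2) +
        L ^ 2 * ((2 * (om - W) ^ 2 + 2 * W ^ 2) / (H ^ 2 * W ^ 2))) := by linarith
    _ = _ := by ring

open scoped Classical in
/-- one term of the contribution of the non-primitive products -/
theorem dBW_term (hR : Rw Λ wt) (hD : t ^ 2 < 4 * c) {H v m n : ℕ} (hH : 1 ≤ H) (hm : m ∈ cellM M H v)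
    (hn : n ≠ 0) {Y : ℝ} (hY : 0 < Y) {z : Qd t c} (hz : z ≠ 0) {J : Prop}
    (hl : ∀ u : Qd t c, ϖ m * u = (n : Qd t c) * z → J) :
    |if ∃ u : Qd t c, prim u ∧ ϖ m * u = (n : Qd t c) * z then
      VlW wt m n (Real.log Y - (v : ℝ) / H) z else 0| ≤
      if z ∈ win t c (Y / (n : ℝ) ^ 2) ∧ J then 1 / (n : ℝ) ^ 2 else 0 := by
  have hN : (0 : ℝ) < nm z := nm_posR hD hz
  have hn0 : (0 : ℝ) < n := by exact_mod_cast Nat.pos_of_ne_zero hn
  have hH0 : (0 : ℝ) < H := by exact_mod_cast hH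
  obtain ⟨-, hm1, hm2⟩ := cellM_facts hm
  by_cases hex : ∃ u : Qd t c, prim u ∧ ϖ m * u = (n : Qd t c) * z
  · rw [if_pos hex]
    obtain ⟨u, -, hu⟩ := hex
    have hlat := hl u hu
    by_cases hin : z ∈ win t c (Y / (n : ℝ) ^ 2)
    · rw [if_pos ⟨hin, hlat⟩]
      unfold VlW
      rw [abs_div, abs_mul, abs_of_pos (by positivity : (0:ℝ) < (n:ℝ)^2)]
      apply div_le_div_of_nonneg_right _ (by positivity)
      have h1 : |(gl z : ℝ)| ≤ 1 := by
        rcases gl_eq z with h | h <;> rw [h] <;> simp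
      have h2 : |wt (Real.log (nm z) + 2 * Real.log n - Real.log m -
          (Real.log Y - (v : ℝ) / H))| ≤ 1 := by
        exact hR.bd _
      exact mul_le_one₀ h1 (abs_nonneg _) h2
    · have hw : wt (Real.log (nm z) + 2 * Real.log n - Real.log m -
          (Real.log Y - (v : ℝ) / H)) = 0 := by
        apply hR.supp
        by_contra hcon
        rw [not_le, abs_lt] at hcon
        obtain ⟨ha, hb'⟩ := hcon
        apply hin
        have h3 : ((v : ℝ) + 1) / H = (v : ℝ) / H + 1 / H := by ring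
        have h4 : (1 : ℝ) / H ≤ 1 := by
          rw [div_le_one hH0]; exact_mod_cast hH
        have hlz : Real.log (Y / (n:ℝ)^2) = Real.log Y - 2 * Real.log n := by
          rw [Real.log_div hY.ne' (by positivity), Real.log_pow]; push_cast; ring
        rw [mem_win hD]
        refine ⟨nm_pos hD hz, ?_, ?_⟩
        · rw [← Real.log_le_log_iff (by positivity) hN,
            Real.log_div (by positivity) (Real.exp_pos 2).ne', Real.log_exp, hlz]
          linarith
        · rw [← Real.log_le_log_iff hN (by positivity),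
            Real.log_mul (Real.exp_pos 2).ne' (by positivity), Real.log_exp, hlz]
          linarith
      unfold VlW
      rw [hw]
      simp only [mul_zero, zero_div, abs_zero]
      split_ifs <;> positivity
  · rw [if_neg hex, abs_zero]
    split_ifs <;> positivity

/-- the mean square of the contribution of the non-primitive products -/
theorem dBW_mean (hR : Rw Λ wt) (hD : t ^ 2 < 4 * c) (hI : S_LATI t c) (he : Ele t c Ap Bp M E ρ ϖ) :
    ∃ K : ℝ, 0 < K ∧ ∀ (H v₀ v₁ : ℕ), 1 ≤ H → ∀ Y : ℝ, 0 < Y →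
      ∑ z ∈ pball t c (Real.exp 2 * Y), Y * (dBW wt M ϖ H v₀ v₁ Y z) ^ 2 / (nm z : ℝ) ^ 2 ≤
        K * ∑ v ∈ Ico v₀ v₁, mE M H v := by
  classical
  obtain ⟨C, hC, hw⟩ := win_lat hD hI
  obtain ⟨C₂, hC₂, hRm⟩ := mert_range E he.pos
  have hC₂0 : 0 ≤ C₂ := by linarith
  have hfac := he.fac
  choose! pA pB h1 h2 h3 h4 h5 using hfac
  set K₀ : ℝ := Real.exp 2 * C * (Real.exp 6 * (C₂ + 1)) with hK₀
  refine ⟨9 * K₀, by positivity, ?_⟩
  intro H v₀ v₁ hH Y hY
  set S : Finset ℕ := (Ico v₀ v₁).biUnion (cellM M H) with hS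
  have hdisj : Set.PairwiseDisjoint (↑(Ico v₀ v₁) : Set ℕ) (cellM M H) := by
    intro v _ v' _ hne
    rw [Function.onFun, Finset.disjoint_left]
    intro p hp hp'
    exact hne (cellM_disj hH hp hp')
  have hWS : ∑ m ∈ S, 1 / (m : ℝ) = ∑ v ∈ Ico v₀ v₁, mE M H v := by
    rw [hS, Finset.sum_biUnion hdisj]; rfl
  have hSM : ∀ m ∈ S, M m := by
    intro m hm
    rw [hS, mem_biUnion] at hm
    obtain ⟨v, _, hm⟩ := hm
    exact (cellM_facts hm).1
  set D := pball t c (Real.exp 2 * Y) with hDdef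
  have hDne : ∀ z ∈ D, z ≠ 0 := by
    intro z hz
    rw [hDdef, mem_pball hD] at hz
    exact prim_ne_zero hz.1
  have hcop : ∀ a b : ℕ, a.Prime → b.Prime → a = b ∨ a.Coprime b := by
    intro a b ha hb
    by_cases hab : a = b
    · exact Or.inl hab
    · exact Or.inr ((Nat.coprime_primes ha hb).2 hab)
  obtain ⟨I, hIdef⟩ : ∃ I : ℕ → Qd t c → Prop, ∀ q z, I q z ↔ lat q (ρ q) z :=
    ⟨fun q z => lat q (ρ q) z, fun _ _ => Iff.rfl⟩
  have i1 := imprim hD S pA pB I hC.le hC₂0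
    (fun m hm => ⟨h3 m (hSM m hm), (he.prA _ (h1 m (hSM m hm))).1.pos,
      (he.prB _ (h2 m (hSM m hm))).1.pos⟩)
    (fun m hm m' hm' Z hZ => win_two' he hC hw
      (sm_prime (he.prB _ (h2 m (hSM m hm))).1 (Or.inr (h2 m (hSM m hm))))
      (sm_prime (he.prB _ (h2 m' (hSM m' hm'))).1 (Or.inr (h2 m' (hSM m' hm'))))
      (hcop _ _ (he.prB _ (h2 m (hSM m hm))).1 (he.prB _ (h2 m' (hSM m' hm'))).1) hZ hIdef)
    (fibre_bound hRm (fun m hm => ⟨h3 m (hSM m hm), (he.prA _ (h1 m (hSM m hm))).2.1,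
      (he.prB _ (h2 m (hSM m hm))).1, (he.prB _ (h2 m (hSM m hm))).2.1, h4 m (hSM m hm),
      h5 m (hSM m hm)⟩)) D hDne hY
  have i2 := imprim hD S pB pA I hC.le hC₂0
    (fun m hm => ⟨(h3 m (hSM m hm)).trans (mul_comm _ _), (he.prB _ (h2 m (hSM m hm))).1.pos,
      (he.prA _ (h1 m (hSM m hm))).1.pos⟩)
    (fun m hm m' hm' Z hZ => win_two' he hC hw
      (sm_prime (he.prA _ (h1 m (hSM m hm))).1 (Or.inl (h1 m (hSM m hm))))
      (sm_prime (he.prA _ (h1 m' (hSM m' hm'))).1 (Or.inl (h1 m' (hSM m' hm'))))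
      (hcop _ _ (he.prA _ (h1 m (hSM m hm))).1 (he.prA _ (h1 m' (hSM m' hm'))).1) hZ hIdef)
    (fibre_bound hRm (fun m hm => ⟨(h3 m (hSM m hm)).trans (mul_comm _ _),
      (he.prB _ (h2 m (hSM m hm))).2.1, (he.prA _ (h1 m (hSM m hm))).1,
      (he.prA _ (h1 m (hSM m hm))).2.1, h5 m (hSM m hm), h4 m (hSM m hm)⟩)) D hDne hY
  have i3 := imprim hD S (fun m => m) (fun _ => 1) I hC.le hC₂0
    (fun m hm => ⟨(mul_one m).symm, (ele_facts he (hSM m hm)).2.2.1, le_rfl⟩)
    (fun m hm m' hm' Z hZ => win_two' he hC hw sm_one sm_one (Or.inl rfl) hZ hIdef)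
    (by
      intro m hm
      rw [Finset.filter_eq' S m, if_pos hm, Finset.sum_singleton]
      simpa using hC₂) D hDne hY
  rw [← hK₀] at i1 i2 i3
  rw [hWS] at i1 i2 i3
  set W : ℝ := ∑ v ∈ Ico v₀ v₁, mE M H v with hW
  -- pointwise
  set β : ℕ → ℕ → Qd t c → ℝ := fun n n' z =>
    if z ∈ win t c (Y / (n : ℝ) ^ 2) ∧ I n' z then 1 / (n : ℝ) ^ 2 else 0 with hβ
  have hβ0 : ∀ n n' z, 0 ≤ β n n' z := by
    intro n n' z
    simp only [hβ]
    split_ifs <;> positivity
  have hpt : ∀ z ∈ D, |dBW wt M ϖ H v₀ v₁ Y z| ≤ ∑ m ∈ S, β (pA m) (pB m) z +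
      ∑ m ∈ S, β (pB m) (pA m) z + ∑ m ∈ S, β m 1 z := by
    intro z hz
    have hz0 := hDne z hz
    rw [← Finset.sum_add_distrib, ← Finset.sum_add_distrib, hS, Finset.sum_biUnion hdisj]
    unfold dBW
    refine (Finset.abs_sum_le_sum_abs _ _).trans (Finset.sum_le_sum fun v _ => ?_)
    refine (Finset.abs_sum_le_sum_abs _ _).trans (Finset.sum_le_sum fun m hm => ?_)
    obtain ⟨hmM, -, -⟩ := cellM_facts hm
    obtain ⟨hSm, -, -, -⟩ := ele_facts he hmM
    have hA := h1 m hmM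
    have hB := h2 m hmM
    have hAp := (he.prA _ hA).1
    have hBp := (he.prB _ hB).1
    have hm3 := h3 m hmM
    have hne : pA m ≠ pB m := by
      intro h
      rw [← h] at hB
      exact he.disj _ hA hB
    have hqA : ¬ (pA m) ^ 2 ∣ m := by
      intro h
      have h' := h.trans (dvd_of_eq hm3)
      rw [sq] at h'
      have := Nat.dvd_of_mul_dvd_mul_left hAp.pos h'
      exact hne ((Nat.prime_dvd_prime_iff_eq hAp hBp).1 this)
    have hqB : ¬ (pB m) ^ 2 ∣ m := by
      intro h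
      have h' := h.trans (dvd_of_eq hm3)
      rw [sq] at h'
      have := Nat.dvd_of_mul_dvd_mul_right hBp.pos h'
      exact hne ((Nat.prime_dvd_prime_iff_eq hBp hAp).1 this).symm
    set F : ℕ → ℝ := fun n => if ∃ u : Qd t c, prim u ∧ ϖ m * u = (n : Qd t c) * z then
      VlW wt m n (Real.log Y - (v : ℝ) / H) z else 0 with hF
    have e1 : |∑ n ∈ m.divisors.erase 1, F n| ≤ |F (pA m)| + |F (pB m)| + |F m| := by
      have := erase_sum_le hAp hBp hne F
      rw [← hm3] at this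
      exact this
    refine e1.trans ?_
    refine add_le_add (add_le_add ?_ ?_) ?_
    · exact dBW_term hR hD hH hm hAp.ne_zero hY hz0 (fun u hu => (hIdef _ _).2
        (lat_of_content hD he hmM hSm hBp (Or.inr hB) hAp.ne_zero (by rw [← hm3]) hqB hu))
    · exact dBW_term hR hD hH hm hBp.ne_zero hY hz0 (fun u hu => (hIdef _ _).2
        (lat_of_content hD he hmM hSm hAp (Or.inl hA) hBp.ne_zero
          (by rw [mul_comm, ← hm3]) hqA hu))
    · refine dBW_term hR hD hH hm hSm.1 hY hz0 (fun u _ => (hIdef _ _).2 ?_)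
      unfold lat
      simp
  have hsq : ∀ z ∈ D, Y * (dBW wt M ϖ H v₀ v₁ Y z) ^ 2 / (nm z : ℝ) ^ 2 ≤
      3 * (Y * (∑ m ∈ S, β (pA m) (pB m) z) ^ 2 / (nm z : ℝ) ^ 2) +
      3 * (Y * (∑ m ∈ S, β (pB m) (pA m) z) ^ 2 / (nm z : ℝ) ^ 2) +
      3 * (Y * (∑ m ∈ S, β m 1 z) ^ 2 / (nm z : ℝ) ^ 2) := by
    intro z hz
    have hN : (0 : ℝ) < nm z := nm_posR hD (hDne z hz)
    have e1 := pow_le_pow_left₀ (abs_nonneg _) (hpt z hz) 2
    rw [sq_abs] at e1
    set a := ∑ m ∈ S, β (pA m) (pB m) z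
    set b := ∑ m ∈ S, β (pB m) (pA m) z
    set d := ∑ m ∈ S, β m 1 z
    have e2 : (a + b + d) ^ 2 ≤ 3 * a ^ 2 + 3 * b ^ 2 + 3 * d ^ 2 := by
      nlinarith [sq_nonneg (a - b), sq_nonneg (a - d), sq_nonneg (b - d)]
    have e3 : 3 * (Y * a ^ 2 / (nm z : ℝ) ^ 2) + 3 * (Y * b ^ 2 / (nm z : ℝ) ^ 2) +
        3 * (Y * d ^ 2 / (nm z : ℝ) ^ 2) =
        Y * (3 * a ^ 2 + 3 * b ^ 2 + 3 * d ^ 2) / (nm z : ℝ) ^ 2 := by ring
    rw [e3]
    apply div_le_div_of_nonneg_right _ (by positivity)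
    exact mul_le_mul_of_nonneg_left (e1.trans e2) hY.le
  refine (Finset.sum_le_sum hsq).trans ?_
  rw [Finset.sum_add_distrib, Finset.sum_add_distrib, ← Finset.mul_sum, ← Finset.mul_sum,
    ← Finset.mul_sum]
  linarith

open scoped Classical in
/-- the product of one element with `G`, sorted by the content -/
theorem one_termW (hR : Rw Λ wt) (hD : t ^ 2 < 4 * c) {a : Qd t c} (ha : a ≠ 0)
    (hinv : ∀ (n : ℕ) (u z : Qd t c), n ∣ nm a → prim u → prim z → a * u = (n : Qd t c) * z →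
      F u = F z)
    {Z : ℝ} (hZ : 0 < Z) {D : Finset (Qd t c)}
    (hDD : ∀ z : Qd t c, prim z → (nm z : ℝ) ≤ nm a * (Real.exp 1 * Z) → z ∈ D)
    (hDp : ∀ z ∈ D, prim z) (k : ℤ) :
    ps k a / ((nm a : ℕ) : ℂ) * GFw wt F Z k =
      ∑ z ∈ D, twF F z * (((∑ n ∈ (nm a).divisors,
        (if ∃ u : Qd t c, prim u ∧ a * u = (n : Qd t c) * z then
        VlW wt (nm a) n (Real.log Z) z else 0) / nm z : ℝ) : ℂ) * ps k z) := by
  have hm0 : 0 < nm a := nm_pos hD ha
  have hmR : (0 : ℝ) < nm a := nm_posR hD ha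
  have hmC : ((nm a : ℕ) : ℂ) ≠ 0 := by exact_mod_cast hmR.ne'
  set U := pball t c (Real.exp 1 * Z) with hU
  set Fs : Qd t c → ℂ := fun u => (1 / ((nm a : ℕ) : ℂ)) *
    ((F u : ℂ) * ((wt (Real.log (nm u) - Real.log Z) / nm u : ℝ) : ℂ)) * ps k (a * u) with hF
  have e1 : ps k a / ((nm a : ℕ) : ℂ) * GFw wt F Z k = ∑ u ∈ U, Fs u := by
    unfold GFw DPG
    rw [Finset.mul_sum]
    refine Finset.sum_congr rfl fun u _ => ?_
    simp only [hF]
    rw [ps_mul hD]
    ring
  have e2 : ∑ u ∈ U, Fs u = ∑ z ∈ D, ∑ n ∈ (nm a).divisors, ∑ u ∈ U,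
      (if a * u = (n : Qd t c) * z then Fs u else 0) := by
    have h1 : ∀ u ∈ U, Fs u = ∑ z ∈ D, ∑ n ∈ (nm a).divisors,
        (if a * u = (n : Qd t c) * z then Fs u else 0) := by
      intro u hu
      rw [hU, mem_pball hD] at hu
      obtain ⟨n, hn, z, hz, he⟩ := content_exists hD ha hu.1
      have hn0 : 0 < n := Nat.pos_of_mem_divisors hn
      have hnR : (1 : ℝ) ≤ n := by exact_mod_cast hn0
      have hzD : z ∈ D := by
        apply hDD z hz
        have h2 : nm a * nm u = n ^ 2 * nm z := by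
          rw [← nm_mul, he, nm_mul, nm_natCast]
        have h3 : (nm a : ℝ) * nm u = (n : ℝ) ^ 2 * nm z := by exact_mod_cast h2
        have h4 : (0 : ℝ) ≤ nm z := Nat.cast_nonneg _
        have h5 : (1 : ℝ) ≤ (n : ℝ) ^ 2 := one_le_pow₀ hnR
        calc (nm z : ℝ) ≤ (n : ℝ) ^ 2 * nm z := le_mul_of_one_le_left h4 h5
          _ = nm a * nm u := h3.symm
          _ ≤ nm a * (Real.exp 1 * Z) := mul_le_mul_of_nonneg_left hu.2 hmR.le
      rw [Finset.sum_eq_single_of_mem z hzD, Finset.sum_eq_single_of_mem n hn]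
      · rw [if_pos he]
      · intro n' hn' hne
        rw [if_neg]
        intro h
        rw [he] at h
        exact hne (content_unique hz hz hn0.ne' h).1.symm
      · intro z' hz' hne
        refine Finset.sum_eq_zero fun n' hn' => ?_
        rw [if_neg]
        intro h
        rw [he] at h
        exact hne (content_unique hz (hDp z' hz') hn0.ne' h).2.symm
    rw [Finset.sum_congr rfl h1, Finset.sum_comm]
    refine Finset.sum_congr rfl fun z _ => ?_
    rw [Finset.sum_comm]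
  rw [e1, e2]
  refine Finset.sum_congr rfl fun z hz => ?_
  have hzp := hDp z hz
  have hN : (0 : ℝ) < nm z := nm_posR hD (prim_ne_zero hzp)
  have hNc : ((nm z : ℕ) : ℂ) ≠ 0 := by exact_mod_cast hN.ne'
  push_cast
  rw [Finset.sum_mul, Finset.mul_sum]
  refine Finset.sum_congr rfl fun n hn => ?_
  have hn0 : 0 < n := Nat.pos_of_mem_divisors hn
  have hnR : (0 : ℝ) < n := by exact_mod_cast hn0
  have hnC : (n : ℂ) ≠ 0 := by exact_mod_cast hn0.ne'
  by_cases hex : ∃ u : Qd t c, prim u ∧ a * u = (n : Qd t c) * z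
  · obtain ⟨u, hu, he⟩ := hex
    rw [if_pos ⟨u, hu, he⟩]
    have hNu : (0 : ℝ) < nm u := nm_posR hD (prim_ne_zero hu)
    have hNuc : ((nm u : ℕ) : ℂ) ≠ 0 := by exact_mod_cast hNu.ne'
    have h2 : nm a * nm u = n ^ 2 * nm z := by
      rw [← nm_mul, he, nm_mul, nm_natCast]
    have h3 : (nm a : ℝ) * nm u = (n : ℝ) ^ 2 * nm z := by exact_mod_cast h2
    have h3c : ((nm a : ℕ) : ℂ) * ((nm u : ℕ) : ℂ) = (n : ℂ) ^ 2 * ((nm z : ℕ) : ℂ) := by
      exact_mod_cast h2
    have hlog : Real.log (nm u) = Real.log (nm z) + 2 * Real.log n - Real.log (nm a) := by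
      have := congrArg Real.log h3
      rw [Real.log_mul hmR.ne' hNu.ne', Real.log_mul (by positivity) hN.ne', Real.log_pow] at this
      push_cast at this
      linarith
    have hgl : (F u : ℂ) = (F z : ℂ) := by
      exact_mod_cast hinv n u z (Nat.dvd_of_mem_divisors hn) hu hzp he
    have hps : ps k (a * u) = ps k z := by rw [he, ps_natCast_mul hD hn0]
    by_cases hin : u ∈ U
    · rw [Finset.sum_eq_single_of_mem u hin, if_pos he]
      · simp only [hF]
        rw [hps, hgl]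
        unfold VlW
        rw [hlog]
        have e3 : Real.log (nm z) + 2 * Real.log n - Real.log (nm a) - Real.log Z =
          Real.log (nm z) + 2 * Real.log n - Real.log (nm a) - Real.log Z := rfl
        push_cast
        have hd : (1 / ((nm a : ℕ) : ℂ)) / ((nm u : ℕ) : ℂ) =
            1 / (n : ℂ) ^ 2 / ((nm z : ℕ) : ℂ) := by
          rw [div_div, div_div, h3c]
        unfold twF
        linear_combination ((F z : ℂ) * ((wt (Real.log (nm z) + 2 * Real.log n -
          Real.log (nm a) - Real.log Z) : ℝ) : ℂ) * ps k z) * hd -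
          ((F z : ℂ) * ((wt (Real.log (nm z) + 2 * Real.log n -
          Real.log (nm a) - Real.log Z) : ℝ) : ℂ) * ps k z / (n : ℂ) ^ 2 / ((nm z : ℕ) : ℂ)) *
          gl_sq z
      · intro u' hu' hne
        rw [if_neg]
        intro h
        rw [← he] at h
        exact hne (mul_cancel hD ha h)
    · have hw : wt (Real.log (nm u) - Real.log Z) = 0 := by
        apply bgW_zero hR hD hZ hu
        intro h
        apply hin
        rw [hU, mem_pball hD]
        exact ⟨hu, h⟩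
      rw [Finset.sum_eq_zero]
      · unfold VlW
        rw [← hlog, hw]
        simp
      · intro u' hu'
        rw [if_neg]
        intro h
        rw [← he] at h
        rw [mul_cancel hD ha h] at hu'
        exact hin hu'
  · rw [if_neg hex, Finset.sum_eq_zero]
    · simp
    · intro u hu
      rw [if_neg]
      intro h
      rw [hU, mem_pball hD] at hu
      exact hex ⟨u, hu.1, h⟩

theorem GFw_eq (hR : Rw Λ wt) (F : Qd t c → ℤ) (hD : t ^ 2 < 4 * c) {Y : ℝ} (hY : 0 < Y) (k : ℤ) :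
    GFw wt F Y k = ∑ z ∈ pball t c (Real.exp 2 * Y), twF F z *
      (((((gl z : ℝ) * wt (Real.log (nm z) - Real.log Y)) / nm z : ℝ) : ℂ) * ps k z) := by
  unfold GFw DPG
  have h12 : Real.exp 1 * Y ≤ Real.exp 2 * Y :=
    mul_le_mul_of_nonneg_right (Real.exp_le_exp.2 (by norm_num)) hY.le
  refine Finset.sum_congr_of_eq_on_inter ?_ ?_ ?_
  · intro z hz hz'
    exfalso
    rw [mem_pball hD] at hz hz'
    exact hz' ⟨hz.1, hz.2.trans h12⟩
  · intro z hz hz'
    rw [mem_pball hD] at hz hz'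
    rw [bgW_zero hR hD hY hz.1 (fun h => hz' ⟨hz.1, h⟩)]
    simp
  · intro z _ _
    unfold twF
    push_cast
    linear_combination -((F z : ℂ) * ((wt (Real.log (nm z) - Real.log Y) : ℝ) : ℂ) /
      ((nm z : ℕ) : ℂ) * ps k z) * gl_sq z

theorem sum_eqW (hR : Rw Λ wt) (hT : Tw M ϖ F) (hD : t ^ 2 < 4 * c) (he : Ele t c Ap Bp M E ρ ϖ) {H v₀ v₁ : ℕ}
    (hH : 1 ≤ H) {Y : ℝ} (hY : 0 < Y) (k : ℤ) :
    ∑ v ∈ Ico v₀ v₁, PF M ϖ H v k * GFw wt F (Y * Real.exp (-((v : ℝ) / H))) k =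
      -∑ z ∈ pball t c (Real.exp 2 * Y), twF F z *
        (((((gl z : ℝ) * dTW wt M ϖ H v₀ v₁ Y z + dBW wt M ϖ H v₀ v₁ Y z) / nm z : ℝ) : ℂ) *
          ps k z) := by
  classical
  have hH0 : (0 : ℝ) < H := by exact_mod_cast hH
  have h1 : ∀ v ∈ Ico v₀ v₁, PF M ϖ H v k * GFw wt F (Y * Real.exp (-((v : ℝ) / H))) k =
      -∑ z ∈ pball t c (Real.exp 2 * Y), ∑ m ∈ cellM M H v, twF F z *
        (((((gl z : ℝ) * (if ϖ m ∣ z then
          wt (Real.log (nm z) - Real.log Y - (Real.log m - (v : ℝ) / H)) else 0) +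
          ∑ n ∈ m.divisors.erase 1,
            (if ∃ u : Qd t c, prim u ∧ ϖ m * u = (n : Qd t c) * z then
              VlW wt m n (Real.log Y - (v : ℝ) / H) z else 0)) / nm z : ℝ) : ℂ) * ps k z) := by
    intro v _
    unfold PF
    rw [neg_mul, Finset.sum_mul, Finset.sum_comm]
    congr 1
    refine Finset.sum_congr rfl fun m hm => ?_
    obtain ⟨hmM, hm1, hm2⟩ := cellM_facts hm
    obtain ⟨-, -, hmpos, hϖ⟩ := ele_facts he hmM
    have hn := (he.elt m hmM).1
    have hm0 : (0 : ℝ) < m := by exact_mod_cast hmpos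
    set Z : ℝ := Y * Real.exp (-((v : ℝ) / H)) with hZ
    have hZ0 : 0 < Z := by positivity
    have hlogZ : Real.log Z = Real.log Y - (v : ℝ) / H := by
      rw [hZ, Real.log_mul hY.ne' (Real.exp_pos _).ne', Real.log_exp]; ring
    have hmZ : (m : ℝ) * (Real.exp 1 * Z) ≤ Real.exp 2 * Y := by
      have h5 : (m : ℝ) ≤ Real.exp (1 + (v : ℝ) / H) := by
        rw [← Real.log_le_iff_le_exp hm0]
        have h3 : ((v : ℝ) + 1) / H = (v : ℝ) / H + 1 / H := by ring
        have h4 : (1 : ℝ) / H ≤ 1 := by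
          rw [div_le_one hH0]; exact_mod_cast hH
        linarith
      calc (m : ℝ) * (Real.exp 1 * Z) ≤ Real.exp (1 + (v : ℝ) / H) * (Real.exp 1 * Z) :=
            mul_le_mul_of_nonneg_right h5 (by positivity)
        _ = Real.exp 2 * Y := by
            rw [hZ]
            have : Real.exp (1 + (v : ℝ) / H) * (Real.exp 1 * (Y * Real.exp (-((v : ℝ) / H)))) =
              (Real.exp (1 + (v : ℝ) / H) * Real.exp 1 * Real.exp (-((v : ℝ) / H))) * Y := by ring
            rw [this, ← Real.exp_add, ← Real.exp_add]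
            congr 2
            ring
    have h2 := one_termW (F := F) hR hD hϖ (fun n u z hn' hu hz hz' =>
        hT.mul m n u z hmM (by rwa [hn] at hn') hu hz hz') hZ0 (D := pball t c (Real.exp 2 * Y))
      (by
        intro z hz hz2
        rw [hn] at hz2
        rw [mem_pball hD]
        exact ⟨hz, hz2.trans hmZ⟩)
      (fun z hz => ((mem_pball hD).1 hz).1) k
    rw [hn] at h2
    rw [h2]
    refine Finset.sum_congr rfl fun z hz => ?_
    rw [mem_pball hD] at hz
    congr 3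
    have h1m : 1 ∈ m.divisors := by
      rw [Nat.mem_divisors]
      exact ⟨one_dvd _, by omega⟩
    rw [← Finset.sum_div, ← Finset.add_sum_erase _ _ h1m, hlogZ]
    congr 2
    have hiff : (∃ u : Qd t c, prim u ∧ ϖ m * u = ((1 : ℕ) : Qd t c) * z) ↔ ϖ m ∣ z := by
      constructor
      · rintro ⟨u, -, hu⟩
        rw [Nat.cast_one, one_mul] at hu
        exact ⟨u, hu.symm⟩
      · rintro ⟨u, rfl⟩
        refine ⟨u, prim_of_dvd hz.1 (Dvd.intro_left _ rfl), ?_⟩
        rw [Nat.cast_one, one_mul]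
    by_cases hd : ϖ m ∣ z
    · rw [if_pos (hiff.2 hd), if_pos hd]
      unfold VlW
      rw [Nat.cast_one, Real.log_one]
      have e1 : Real.log (nm z) + 2 * 0 - Real.log m - (Real.log Y - (v : ℝ) / H) =
        Real.log (nm z) - Real.log Y - (Real.log m - (v : ℝ) / H) := by ring
      rw [e1]
      ring
    · rw [if_neg (fun h => hd (hiff.1 h)), if_neg hd, mul_zero]
  rw [Finset.sum_congr rfl h1, Finset.sum_neg_distrib, Finset.sum_comm]
  congr 1
  refine Finset.sum_congr rfl fun z _ => ?_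
  rw [← Finset.sum_congr rfl (fun v _ => Finset.mul_sum _ _ _), ← Finset.mul_sum]
  congr 1
  rw [← Finset.sum_congr rfl (fun v _ => Finset.sum_mul _ _ _), ← Finset.sum_mul]
  congr 1
  unfold dTW dBW
  rw [Finset.mul_sum, ← Finset.sum_add_distrib, Finset.sum_div]
  push_cast
  refine Finset.sum_congr rfl fun v _ => ?_
  rw [Finset.mul_sum, ← Finset.sum_add_distrib, Finset.sum_div]

theorem dec_boundW (hR : Rw Λ wt) (hD : t ^ 2 < 4 * c) (hI : S_LATI t c) (hTK : S_TK t c)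
    (he : Ele t c Ap Bp M E ρ ϖ) : ∃ C : ℝ, 0 < C ∧ ∀ H v₀ v₁ : ℕ, 1 ≤ H → H ≤ v₀ →
    1 ≤ ∑ v ∈ Ico v₀ v₁, mE M H v → ∀ Y : ℝ, Real.exp (4 * (v₁ : ℝ) / H) ≤ Y →
      Y * ∑ z ∈ pball t c (Real.exp 2 * Y), ‖((((gl z : ℝ) * (wt (Real.log (nm z) - Real.log Y) -
      dTW wt M ϖ H v₀ v₁ Y z / (∑ v ∈ Ico v₀ v₁, mE M H v)) - dBW wt M ϖ H v₀ v₁ Y z /
      (∑ v ∈ Ico v₀ v₁, mE M H v)) / nm z : ℝ) : ℂ)‖ ^ 2 ≤
        C * (1 / (∑ v ∈ Ico v₀ v₁, mE M H v) + 1 / (H : ℝ) ^ 2) := by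
  classical
  obtain ⟨Cw, hCw, hwin0⟩ := win_lat hD hI
  have hwin : ∀ Z : ℝ, 0 < Z → ∑ z ∈ win t c Z, 1 / (nm z : ℝ) ≤ Cw := by
    intro Z hZ
    have h1 := hwin0 1 0 le_rfl (by simp) Z hZ
    have h2 : (win t c Z).filter (lat 1 0) = win t c Z := by
      rw [Finset.filter_true_of_mem]
      intro z _
      unfold lat
      simp
    rw [h2] at h1
    simpa using h1
  obtain ⟨C, hC, htk⟩ := hTK Ap Bp M E ρ ϖ he
  obtain ⟨K, hK, hBm⟩ := dBW_mean hR hD hI he
  obtain ⟨L, hL1, hLΛ⟩ : ∃ L : ℝ, 1 ≤ L ∧ Λ ≤ L := ⟨max Λ 1, le_max_right _ _, le_max_left _ _⟩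
  obtain ⟨e2, he2⟩ : ∃ e2 : ℝ, e2 = L ^ 2 * Real.exp 2 := ⟨_, rfl⟩
  have he20 : 0 < e2 := by rw [he2]; positivity
  refine ⟨2 * (e2 * (6 * C + 4 * Cw)) + 2 * K, by positivity, ?_⟩
  intro H v₀ v₁ hH hHv hW Y hexp
  set W : ℝ := ∑ v ∈ Ico v₀ v₁, mE M H v with hWdef
  have hY : 1 ≤ Y := by
    refine le_trans ?_ hexp
    rw [← Real.exp_zero]
    apply Real.exp_le_exp.mpr; positivity
  have hY0 : 0 < Y := by linarith
  have hH0 : (0:ℝ) < H := by exact_mod_cast hH
  have hH1 : (1:ℝ) ≤ H := by exact_mod_cast hH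
  have hW0 : 0 < W := by linarith
  have hWc : (W : ℂ) ≠ 0 := by exact_mod_cast hW0.ne'
  set S : Finset ℕ := (Ico v₀ v₁).biUnion (cellM M H) with hS
  have hdisj : Set.PairwiseDisjoint (↑(Ico v₀ v₁) : Set ℕ) (cellM M H) := by
    intro v _ v' _ hne
    rw [Function.onFun, Finset.disjoint_left]
    intro p hp hp'
    exact hne (cellM_disj hH hp hp')
  have hWS : ∑ m ∈ S, 1 / (m : ℝ) = W := by
    rw [hS, Finset.sum_biUnion hdisj, hWdef]; rfl
  have hSm : ∀ m ∈ S, M m ∧ (m : ℝ) ≤ Real.exp ((v₁ : ℝ) / H) := by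
    intro m hm
    rw [hS, mem_biUnion] at hm
    obtain ⟨v, hv, hm⟩ := hm
    obtain ⟨h1, h3, h4⟩ := cellM_facts hm
    refine ⟨h1, ?_⟩
    have hm0 : (0:ℝ) < m := by
      have := (ele_facts he h1).2.2.1
      exact_mod_cast this
    rw [← Real.log_le_iff_le_exp hm0]
    refine h4.le.trans ?_
    apply div_le_div_of_nonneg_right _ hH0.le
    have := (mem_Ico.mp hv).2
    exact_mod_cast this
  have hTK := htk S (Real.exp ((v₁ : ℝ) / H)) Y hSm
    (by rw [hWS]; exact hW) (by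
    rw [← Real.exp_nat_mul]
    refine le_trans (le_of_eq ?_) hexp
    congr 1; push_cast; ring)
  rw [hWS] at hTK
  set D := pball t c (Real.exp 2 * Y) with hDdef
  · rw [Finset.mul_sum]
    -- pointwise bound
    have hpt : ∀ z ∈ D, Y * ‖((((gl z : ℝ) * (wt (Real.log (nm z) - Real.log Y) -
        dTW wt M ϖ H v₀ v₁ Y z / W) - dBW wt M ϖ H v₀ v₁ Y z / W) / nm z : ℝ) : ℂ)‖ ^ 2 ≤
        2 * (if z ∈ win t c Y then e2 *
          ((2 / W ^ 2 + 4 / (H ^ 2 * W ^ 2)) *
          ((((S.filter (fun m => ϖ m ∣ z)).card : ℝ) - W) ^ 2 / nm z) +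
          4 / H ^ 2 * (1 / nm z)) else 0) +
        2 * (1 / W ^ 2 * (Y * (dBW wt M ϖ H v₀ v₁ Y z) ^ 2 / (nm z : ℝ) ^ 2)) := by
      intro z hz
      rw [hDdef, mem_pball hD] at hz
      have hzne := prim_ne_zero hz.1
      have hN := nm_posR hD hzne
      rw [Complex.norm_real, Real.norm_eq_abs, sq_abs, div_pow]
      set N : ℝ := (nm z : ℝ) with hNd
      set x : ℝ := wt (Real.log N - Real.log Y) with hx
      set T : ℝ := dTW wt M ϖ H v₀ v₁ Y z with hTd
      set B : ℝ := dBW wt M ϖ H v₀ v₁ Y z with hBd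
      have hg : (gl z : ℝ) ^ 2 = 1 := by
        rcases gl_eq z with h | h <;> rw [h] <;> norm_num
      have hsplit : ((gl z : ℝ) * (x - T / W) - B / W) ^ 2 ≤ 2 * (x - T / W) ^ 2 +
          2 * (1 / W ^ 2 * B ^ 2) := by
        have h1 : ((gl z : ℝ) * (x - T / W) - B / W) ^ 2 ≤ 2 * ((gl z : ℝ) * (x - T / W)) ^ 2 +
            2 * (B / W) ^ 2 := by
          nlinarith [sq_nonneg ((gl z : ℝ) * (x - T / W) + B / W)]
        have h2 : ((gl z : ℝ) * (x - T / W)) ^ 2 = (x - T / W) ^ 2 := by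
          rw [mul_pow, hg, one_mul]
        have h3 : (B / W) ^ 2 = 1 / W ^ 2 * B ^ 2 := by rw [div_pow]; ring
        rw [h3, h2] at h1
        exact h1
      have hmain1 : Y / N ^ 2 * (x - T / W) ^ 2 ≤ if z ∈ win t c Y then e2 *
          ((2 / W ^ 2 + 4 / (H ^ 2 * W ^ 2)) *
          ((((S.filter (fun m => ϖ m ∣ z)).card : ℝ) - W) ^ 2 / N) +
          4 / H ^ 2 * (1 / N)) else 0 := by
        by_cases hwin' : z ∈ win t c Y
        · rw [if_pos hwin']
          set om : ℝ := ((S.filter (fun m => ϖ m ∣ z)).card : ℝ) with hom'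
          have hom : om = ∑ v ∈ Ico v₀ v₁, ∑ m ∈ cellM M H v,
              if ϖ m ∣ z then (1 : ℝ) else 0 := by
            rw [hom', Finset.card_filter]
            push_cast
            rw [hS, Finset.sum_biUnion hdisj]
          have hT : |om * x - T| ≤ L * (om / H) := by
            have e1 : om * x - T = ∑ v ∈ Ico v₀ v₁, ∑ m ∈ cellM M H v,
                (if ϖ m ∣ z then (x - wt (Real.log N - Real.log Y -
                  (Real.log m - (v : ℝ) / H))) else 0) := by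
              rw [hom, Finset.sum_mul, hTd]
              unfold dTW
              rw [← Finset.sum_sub_distrib]
              refine Finset.sum_congr rfl fun v _ => ?_
              rw [Finset.sum_mul, ← Finset.sum_sub_distrib]
              refine Finset.sum_congr rfl fun p _ => ?_
              split_ifs <;> simp [hNd]
            have e2' : L * (om / H) = ∑ v ∈ Ico v₀ v₁, ∑ m ∈ cellM M H v,
                (if ϖ m ∣ z then L * (1 / (H : ℝ)) else 0) := by
              rw [hom, Finset.sum_div, Finset.mul_sum]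
              refine Finset.sum_congr rfl fun v _ => ?_
              rw [Finset.sum_div, Finset.mul_sum]
              refine Finset.sum_congr rfl fun p _ => ?_
              split_ifs <;> simp
            rw [e1, e2']
            refine (Finset.abs_sum_le_sum_abs _ _).trans (Finset.sum_le_sum fun v _ => ?_)
            refine (Finset.abs_sum_le_sum_abs _ _).trans (Finset.sum_le_sum fun p hp => ?_)
            obtain ⟨_, h2, h3⟩ := cellM_facts hp
            split_ifs with hd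
            · refine (hR.lip _ _).trans ?_
              have e3 : Real.log N - Real.log Y -
                (Real.log N - Real.log Y - (Real.log p - (v : ℝ) / H)) =
                Real.log p - (v : ℝ) / H := by ring
              rw [e3, abs_of_nonneg (by linarith)]
              have e4 : ((v : ℝ) + 1) / H = (v : ℝ) / H + 1 / H := by ring
              have e5 : 0 ≤ Real.log p - (v : ℝ) / H := by linarith
              have e6 : Real.log p - (v : ℝ) / H ≤ 1 / H := by linarith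
              exact (mul_le_mul_of_nonneg_right hLΛ e5).trans
                (mul_le_mul_of_nonneg_left e6 (by linarith))
            · simp
          have hr := dec_realW hW hH1 hL1 (hR.bd (Real.log N - Real.log Y))
            (by positivity : 0 ≤ om) hT
          have hYN : Y / N ≤ Real.exp 2 := by
            rw [mem_win hD] at hwin'
            rw [div_le_iff₀ hN]
            have := hwin'.2.1
            rw [div_le_iff₀ (Real.exp_pos 2)] at this
            linarith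
          calc Y / N ^ 2 * (x - T / W) ^ 2 = (Y / N) * ((1 / N) * (x - T / W) ^ 2) := by
                field_simp
            _ ≤ Real.exp 2 * ((1 / N) * (x - T / W) ^ 2) :=
                mul_le_mul_of_nonneg_right hYN (by positivity)
            _ ≤ Real.exp 2 * ((1 / N) * (L ^ 2 * (2 * ((om - W) ^ 2 / W ^ 2 +
                  (2 * (om - W) ^ 2 + 2 * W ^ 2) / ((H : ℝ) ^ 2 * W ^ 2))))) := by
                apply mul_le_mul_of_nonneg_left _ (Real.exp_pos 2).le
                exact mul_le_mul_of_nonneg_left hr (by positivity)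
            _ = _ := by rw [he2]; field_simp; ring
        · rw [if_neg hwin']
          have hlt : N < Y / Real.exp 2 := by
            by_contra hcon
            rw [not_lt] at hcon
            apply hwin'
            rw [mem_win hD]
            exact ⟨nm_pos hD hzne, hcon, hz.2⟩
          have hll := Real.log_lt_log hN hlt
          rw [Real.log_div hY0.ne' (Real.exp_pos 2).ne', Real.log_exp] at hll
          have hx0 : x = 0 := by
            rw [hx]
            apply hR.supp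
            rw [abs_of_neg (by linarith)]; linarith
          have hT0 : T = 0 := by
            rw [hTd]
            unfold dTW
            refine Finset.sum_eq_zero fun v _ => Finset.sum_eq_zero fun p hp => ?_
            obtain ⟨_, h2, h3⟩ := cellM_facts hp
            split_ifs
            · apply hR.supp
              rw [abs_of_neg (by linarith)]; linarith
            · rfl
          rw [hx0, hT0]
          simp
      calc Y * (((gl z : ℝ) * (x - T / W) - B / W) ^ 2 / N ^ 2)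
          = Y / N ^ 2 * ((gl z : ℝ) * (x - T / W) - B / W) ^ 2 := by ring
        _ ≤ Y / N ^ 2 * (2 * (x - T / W) ^ 2 + 2 * (1 / W ^ 2 * B ^ 2)) :=
            mul_le_mul_of_nonneg_left hsplit (by positivity)
        _ = 2 * (Y / N ^ 2 * (x - T / W) ^ 2) + 2 * (1 / W ^ 2 * (Y * B ^ 2 / N ^ 2)) := by ring
        _ ≤ _ := by
            apply add_le_add _ le_rfl
            exact mul_le_mul_of_nonneg_left hmain1 (by norm_num)
    refine (Finset.sum_le_sum hpt).trans ?_
    rw [Finset.sum_add_distrib, ← Finset.mul_sum, ← Finset.mul_sum, ← Finset.mul_sum]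
    -- first sum
    have hs1 : (∑ z ∈ D, if z ∈ win t c Y then e2 *
          ((2 / W ^ 2 + 4 / (H ^ 2 * W ^ 2)) *
          ((((S.filter (fun m => ϖ m ∣ z)).card : ℝ) - W) ^ 2 / nm z) +
          4 / H ^ 2 * (1 / nm z)) else 0) ≤
        e2 * (6 * C + 4 * Cw) * (1 / W + 1 / (H : ℝ) ^ 2) := by
      have h1 : (∑ z ∈ D, if z ∈ win t c Y then e2 *
          ((2 / W ^ 2 + 4 / (H ^ 2 * W ^ 2)) *
          ((((S.filter (fun m => ϖ m ∣ z)).card : ℝ) - W) ^ 2 / nm z) +
          4 / H ^ 2 * (1 / nm z)) else 0) ≤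
          ∑ z ∈ win t c Y, e2 *
          ((2 / W ^ 2 + 4 / (H ^ 2 * W ^ 2)) *
          ((((S.filter (fun m => ϖ m ∣ z)).card : ℝ) - W) ^ 2 / nm z) +
          4 / H ^ 2 * (1 / nm z)) := by
        rw [← Finset.sum_filter]
        refine Finset.sum_le_sum_of_subset_of_nonneg ?_ ?_
        · intro z hz
          exact (mem_filter.1 hz).2
        · intro z _ _
          positivity
      refine h1.trans ?_
      rw [← Finset.mul_sum, Finset.sum_add_distrib, ← Finset.mul_sum, ← Finset.mul_sum, mul_assoc]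
      apply mul_le_mul_of_nonneg_left _ he20.le
      have hinv := hwin Y hY0
      have hTK' : ∑ z ∈ win t c Y, (((S.filter (fun m => ϖ m ∣ z)).card : ℝ) - W) ^ 2 /
          (nm z : ℝ) ≤ C * W := hTK
      have hc : 0 ≤ 2 / W ^ 2 + 4 / ((H : ℝ) ^ 2 * W ^ 2) := by positivity
      calc (2 / W ^ 2 + 4 / ((H : ℝ) ^ 2 * W ^ 2)) *
            ∑ z ∈ win t c Y, (((S.filter (fun m => ϖ m ∣ z)).card : ℝ) - W) ^ 2 / (nm z : ℝ) +
            4 / (H : ℝ) ^ 2 * ∑ z ∈ win t c Y, (1 : ℝ) / (nm z : ℝ)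
          ≤ (2 / W ^ 2 + 4 / ((H : ℝ) ^ 2 * W ^ 2)) * (C * W) + 4 / (H : ℝ) ^ 2 * Cw := by
            apply add_le_add
            · exact mul_le_mul_of_nonneg_left hTK' hc
            · exact mul_le_mul_of_nonneg_left hinv (by positivity)
        _ ≤ (6 / W ^ 2) * (C * W) + 4 / (H : ℝ) ^ 2 * Cw := by
            have h6 : 4 / ((H : ℝ) ^ 2 * W ^ 2) ≤ 4 / W ^ 2 := by
              apply div_le_div_of_nonneg_left (by norm_num) (by positivity)
              have : (1:ℝ) ≤ (H : ℝ) ^ 2 := by nlinarith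
              nlinarith [sq_nonneg W]
            have h7 : 2 / W ^ 2 + 4 / ((H : ℝ) ^ 2 * W ^ 2) ≤ 6 / W ^ 2 := by
              have : (6:ℝ) / W ^ 2 = 2 / W ^ 2 + 4 / W ^ 2 := by ring
              linarith
            have := mul_le_mul_of_nonneg_right h7 (by positivity : 0 ≤ C * W)
            linarith
        _ = 6 * C * (1 / W) + 4 * Cw * (1 / (H : ℝ) ^ 2) := by
            field_simp
        _ ≤ 6 * C * (1 / W) + 4 * Cw * (1 / (H : ℝ) ^ 2) +
              (6 * C * (1 / (H : ℝ) ^ 2) + 4 * Cw * (1 / W)) := by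
            have h1 : 0 ≤ 6 * C * (1 / (H : ℝ) ^ 2) := by positivity
            have h2 : 0 ≤ 4 * Cw * (1 / W) := by positivity
            exact le_add_of_nonneg_right (add_nonneg h1 h2)
        _ = (6 * C + 4 * Cw) * (1 / W + 1 / (H : ℝ) ^ 2) := by ring
    -- second sum
    have hs2 := hBm H v₀ v₁ hH Y hY0
    rw [← hWdef, ← hDdef] at hs2
    calc _ ≤ 2 * (e2 * (6 * C + 4 * Cw) * (1 / W + 1 / (H : ℝ) ^ 2)) +
          2 * (1 / W ^ 2 * (K * W)) := by
          apply add_le_add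
          · exact mul_le_mul_of_nonneg_left hs1 (by norm_num)
          · apply mul_le_mul_of_nonneg_left _ (by norm_num)
            exact mul_le_mul_of_nonneg_left hs2 (by positivity)
      _ = 2 * (e2 * (6 * C + 4 * Cw)) * (1 / W + 1 / (H : ℝ) ^ 2) +
          2 * K * (1 / W) := by
          field_simp
      _ ≤ 2 * (e2 * (6 * C + 4 * Cw)) * (1 / W + 1 / (H : ℝ) ^ 2) +
          2 * K * (1 / W) + 2 * K * (1 / (H : ℝ) ^ 2) := by
          have h1 : 0 ≤ 2 * K * (1 / (H : ℝ) ^ 2) := by positivity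
          exact le_add_of_nonneg_right h1
      _ = _ := by ring



theorem decw (hD : t ^ 2 < 4 * c) (_hlat : S_LAT t c) (hlati : S_LATI t c) (htk : S_TK t c) :
    S_DECW t c := by
  intro Λ wt hR Ap Bp M E ρ ϖ he F hT
  obtain ⟨C, hC, hb⟩ := dec_boundW hR hD hlati htk he
  refine ⟨C, hC, fun H v₀ v₁ hH hHv hW Y hexp => ?_⟩
  have h := hb H v₀ v₁ hH hHv hW Y hexp
  set W : ℝ := ∑ v ∈ Ico v₀ v₁, mE M H v with hWdef
  have hY : 1 ≤ Y := by
    refine le_trans ?_ hexp
    rw [← Real.exp_zero]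
    apply Real.exp_le_exp.mpr; positivity
  have hY0 : 0 < Y := by linarith
  have hW0 : 0 < W := by linarith
  have hWc : (W : ℂ) ≠ 0 := by exact_mod_cast hW0.ne'
  refine ⟨pball t c (Real.exp 2 * Y), fun z => twF F z *
    ((((gl z : ℝ) * (wt (Real.log (nm z) - Real.log Y) -
      dTW wt M ϖ H v₀ v₁ Y z / W) - dBW wt M ϖ H v₀ v₁ Y z / W) / nm z : ℝ) : ℂ), ?_, ?_, ?_⟩
  · intro z hz
    rw [mem_pball hD] at hz
    exact hz
  · intro k
    rw [sum_eqW hR hT hD he hH hY0 k, GFw_eq hR F hD hY0 k]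
    unfold DPG
    rw [neg_mul_neg, Finset.mul_sum, ← Finset.sum_add_distrib]
    refine Finset.sum_congr rfl fun z hz => ?_
    rw [mem_pball hD] at hz
    have hzc : ((nm z : ℕ) : ℂ) ≠ 0 := by exact_mod_cast (nm_posR hD (prim_ne_zero hz.1)).ne'
    push_cast
    field_simp
    ring
  · refine le_trans ?_ h
    refine mul_le_mul_of_nonneg_left (Finset.sum_le_sum fun z _ => ?_) hY0.le
    refine pow_le_pow_left₀ (norm_nonneg _) ?_ 2
    rw [norm_mul]
    exact mul_le_of_le_one_left (norm_nonneg _) (norm_twF hT.bd z)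

end Pool.Agent.W179.EC

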